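import Mathlib

/-! Uniform integrability of small negative powers of normalised polynomials. -/

open scoped ENNReal
open MeasureTheory Set Filter Metric

noncomputable section

namespace Pool.Agent.Lib.KG67

/-- The pointwise lower bound by the roots. -/
theorem root_bd {n : ℕ} {β : ℝ} (h0 : 0 < β) (h1 : (n + 1) * β ≤ 1) (p : Polynomial ℂ)
    (hp : p.natDegree ≤ n) (i : ℕ) (hi : p.coeff i ≠ 0) {z : ℂ} (hz : p.eval z ≠ 0) :
    ‖p.eval z‖ ^ (-β) ≤ ‖p.coeff i‖ ^ (-β) *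
      (2 * (1 + ∑ r ∈ p.roots.toFinset, (max 1 ‖r‖ / ‖z - r‖) ^ ((n + 1) * β))) := by
  set γ := (n + 1) * β with hγ
  have γ0 : 0 < γ := by positivity
  set S := 1 + ∑ r ∈ p.roots.toFinset, (max 1 ‖r‖ / ‖z - r‖) ^ γ with hS
  have S0 : 0 ≤ ∑ r ∈ p.roots.toFinset, (max 1 ‖r‖ / ‖z - r‖) ^ γ := by positivity
  have S1 : 1 ≤ S := by linarith
  have Y1 : 1 ≤ S ^ γ⁻¹ := Real.one_le_rpow S1 (by positivity)
  have sp := IsAlgClosed.splits p
  have a1 : ∀ r ∈ p.roots, max 1 ‖r‖ ≤ S ^ γ⁻¹ * ‖z - r‖ := fun r hr => by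
    have d : 0 < ‖z - r‖ := norm_pos_iff.2 (sub_ne_zero.2 fun e =>
      hz (e ▸ (Polynomial.isRoot_of_mem_roots hr).eq_zero))
    rw [← div_le_iff₀ d, Real.le_rpow_inv_iff_of_pos (by positivity) (by positivity) γ0]
    exact (Finset.single_le_sum (f := fun r => (max 1 ‖r‖ / ‖z - r‖) ^ γ) (fun _ _ => by positivity)
      (Multiset.mem_toFinset.2 hr)).trans (by linarith)
  have a2 : ‖p.coeff i‖ ≤ (2 * S ^ γ⁻¹) ^ (n + 1) * ‖p.eval z‖ := by
    have b := Multiset.prod_map_le_prod_map₀ (s := p.roots) (fun r => max 1 ‖r‖) _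
      (fun _ _ => by positivity) a1
    rw [Multiset.prod_map_mul, Multiset.map_const', Multiset.prod_replicate,
      ← sp.natDegree_eq_card_roots] at b
    have c : ‖p.eval z‖ = ‖p.leadingCoeff‖ * (p.roots.map fun r => ‖z - r‖).prod := by
      rw [sp.eval_eq_prod_roots, norm_mul]
      congr 1
      exact (map_multiset_prod (normHom : ℂ →*₀ ℝ) _).trans (by rw [Multiset.map_map]; rfl)
    have c0 : 0 ≤ (p.roots.map fun r => ‖z - r‖).prod :=
      Multiset.prod_map_nonneg fun _ _ => norm_nonneg _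
    have e : (p.natDegree.choose i : ℝ) ≤ 2 ^ (n + 1) := by
      exact_mod_cast (Nat.choose_le_two_pow _ _).trans (Nat.pow_le_pow_right two_pos (by omega))
    calc _ ≤ _ := p.norm_coeff_le_choose_mul_mahlerMeasure i
      _ ≤ 2 ^ (n + 1) * (‖p.leadingCoeff‖ *
          ((S ^ γ⁻¹) ^ (n + 1) * (p.roots.map fun r => ‖z - r‖).prod)) := by
        rw [p.mahlerMeasure_eq_leadingCoeff_mul_prod_roots]
        gcongr
        · exact mul_nonneg (norm_nonneg _) (Multiset.prod_map_nonneg fun _ _ => by positivity)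
        · exact b.trans (by gcongr; omega)
      _ = _ := by rw [c]; ring
  have a3 := Real.rpow_le_rpow (norm_nonneg _) a2 h0.le
  have z0 := Real.rpow_pos_of_pos (norm_pos_iff.2 hz) β
  have i0 := Real.rpow_pos_of_pos (norm_pos_iff.2 hi) β
  rw [Real.mul_rpow (by positivity) (norm_nonneg _), ← Real.rpow_natCast,
    ← Real.rpow_mul (by positivity), Nat.cast_succ, ← hγ, Real.mul_rpow two_pos.le (by positivity),
    Real.rpow_inv_rpow (by positivity) γ0.ne'] at a3
  rw [Real.rpow_neg (norm_nonneg _), Real.rpow_neg (norm_nonneg _), le_inv_mul_iff₀ i0,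
    mul_inv_le_iff₀ z0]
  refine a3.trans ?_
  gcongr
  exact (Real.rpow_le_rpow_of_exponent_le one_le_two h1).trans_eq (Real.rpow_one 2)

/-- The singular part. -/
def sg (z : ℂ) : ℝ := (ball (0 : ℂ) 1).indicator (fun z => ‖z‖⁻¹) z

theorem sg_int : Integrable sg := by
  refine (integrable_indicator_iff measurableSet_ball).2
    (integrableOn_ball_of_norm_le_rpow (C := 1) (α := 1) (by simp) (by simp)
      (Eventually.of_forall fun z => by simp [Real.rpow_neg_one]) ?_)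
  exact measurable_norm.inv.aestronglyMeasurable

theorem sg_nn (z : ℂ) : 0 ≤ sg z := indicator_nonneg (fun _ _ => by positivity) z

theorem fac_bd {γ s : ℝ} (h0 : 0 ≤ γ) (h1 : γ ≤ 1) (hs : γ / 2 ≤ s) (z r : ℂ) :
    (max 1 ‖r‖ / ‖z - r‖) ^ γ * (1 + ‖z‖ ^ 2) ^ (-s) ≤
      4 * ((1 + ‖z‖ ^ 2) ^ (γ / 2 - s) + sg (z - r)) := by
  have q1 : 1 ≤ 1 + ‖z‖ ^ 2 := le_add_of_nonneg_right (by positivity)
  have q2 : (1 + ‖z‖ ^ 2) ^ (γ / 2 - s) ≤ 1 :=
    Real.rpow_le_one_of_one_le_of_nonpos q1 (by linarith)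
  have q3 : 0 < (1 + ‖z‖ ^ 2) ^ (γ / 2 - s) := by positivity
  have q4 : 1 + ‖z‖ ≤ 2 * √(1 + ‖z‖ ^ 2) := by
    have := Real.le_sqrt_of_sq_le (show ‖z‖ ^ 2 ≤ 1 + ‖z‖ ^ 2 by linarith)
    linarith [Real.one_le_sqrt.2 q1]
  have q5 : ‖r‖ ≤ ‖z‖ + ‖z - r‖ := by simpa using norm_sub_le z (z - r)
  have k : ∀ t : ℝ, 1 ≤ t → max 1 ‖r‖ / ‖z - r‖ ≤ 4 * t * √(1 + ‖z‖ ^ 2) →
      (max 1 ‖r‖ / ‖z - r‖) ^ γ * (1 + ‖z‖ ^ 2) ^ (-s) ≤
        4 * t * (1 + ‖z‖ ^ 2) ^ (γ / 2 - s) := fun t ht h => by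
    have := Real.rpow_le_rpow (by positivity) h h0
    rw [Real.mul_rpow (by positivity) (by positivity), Real.sqrt_eq_rpow,
      ← Real.rpow_mul (by positivity), one_div_mul_eq_div] at this
    rw [sub_eq_add_neg (γ / 2), Real.rpow_add (by positivity), ← mul_assoc]
    gcongr
    refine this.trans ?_
    gcongr
    exact (Real.rpow_le_rpow_of_exponent_le (by linarith) h1).trans_eq (Real.rpow_one _)
  have n0 := norm_nonneg z
  rcases le_or_gt 1 ‖z - r‖ with h | h
  · refine (k 1 le_rfl ?_).trans (by linarith [sg_nn (z - r)])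
    rw [div_le_iff₀ (by linarith)]
    exact max_le (by nlinarith) (by nlinarith)
  · rcases (norm_nonneg (z - r)).eq_or_lt with e | e
    · refine (k 1 le_rfl ?_).trans (by linarith [sg_nn (z - r)])
      rw [← e, div_zero]
      positivity
    · have t1 : 1 ≤ ‖z - r‖⁻¹ := (one_le_inv₀ e).2 h.le
      refine (k _ t1 ?_).trans ?_
      · rw [mul_right_comm, ← div_eq_mul_inv]
        gcongr
        exact max_le (by linarith) (by linarith)
      · rw [sg, indicator_of_mem (mem_ball_zero_iff.2 h)]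
        nlinarith

/-- One variable. -/
theorem one (n : ℕ) {s : ℝ} (hs : 1 < s) : ∃ β > (0 : ℝ), ∃ C : ℝ≥0∞, C ≠ 0 ∧ C ≠ ⊤ ∧
    ∀ p : Polynomial ℂ, p.natDegree ≤ n → ∀ i,
      ∫⁻ z, ‖p.eval z‖ₑ ^ (-β) * ENNReal.ofReal ((1 + ‖z‖ ^ 2) ^ (-s)) ≤
        C * ‖p.coeff i‖ₑ ^ (-β) := by
  set γ := min 1 (s - 1) with hγ
  have γ0 : 0 < γ := lt_min one_pos (by linarith)
  have γ1 : γ ≤ 1 := min_le_left _ _
  have γ2 : γ ≤ s - 1 := min_le_right _ _
  set β := γ / (n + 1) with hβ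
  have β0 : 0 < β := by positivity
  have β1 : (n + 1) * β = γ := by rw [hβ]; field_simp
  set ρ : ℂ → ℝ := fun z => (1 + ‖z‖ ^ 2) ^ (γ / 2 - s) with hρ
  have ρ0 : ∀ z, 0 ≤ ρ z := fun z => by positivity
  have ρ1 : Integrable ρ := by
    have := integrable_rpow_neg_one_add_norm_sq (E := ℂ) (μ := volume) (r := 2 * s - γ)
      (by simp; linarith)
    rwa [show -(2 * s - γ) / 2 = γ / 2 - s by ring] at this
  set A := ∫ z, ρ z
  set B := ∫ z, sg z
  have A0 : 0 ≤ A := integral_nonneg ρ0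
  have B0 : 0 ≤ B := integral_nonneg sg_nn
  refine ⟨β, β0, ENNReal.ofReal (2 * (A + n * (4 * (A + B))) + 1),
    (ENNReal.ofReal_pos.2 (by positivity)).ne', ENNReal.ofReal_ne_top, fun p hp i => ?_⟩
  by_cases hi : p.coeff i = 0
  · rw [hi, enorm_zero, ENNReal.zero_rpow_of_neg (by linarith),
      ENNReal.mul_top (ENNReal.ofReal_pos.2 (by positivity)).ne']
    exact le_top
  have p0 : p ≠ 0 := fun e => hi (by simp [e])
  have i0 := norm_pos_iff.2 hi
  have i1 : ∀ r, Integrable fun z => 4 * (ρ z + sg (z - r)) := fun r =>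
    (ρ1.add (sg_int.comp_sub_right r)).const_mul 4
  have i2 := integrable_finsetSum p.roots.toFinset fun r _ => i1 r
  have i3 : Integrable fun z => ‖p.coeff i‖ ^ (-β) *
      (2 * (ρ z + ∑ r ∈ p.roots.toFinset, 4 * (ρ z + sg (z - r)))) :=
    ((ρ1.add i2).const_mul 2).const_mul _
  have n3 : ∀ z, 0 ≤ ∑ r ∈ p.roots.toFinset, 4 * (ρ z + sg (z - r)) := fun z =>
    Finset.sum_nonneg fun r _ => by linarith [ρ0 z, sg_nn (z - r)]
  calc _ ≤ ∫⁻ z, ENNReal.ofReal (‖p.coeff i‖ ^ (-β) *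
        (2 * (ρ z + ∑ r ∈ p.roots.toFinset, 4 * (ρ z + sg (z - r))))) := by
        refine lintegral_mono_ae ?_
        filter_upwards [(p.finite_setOfPred_isRoot p0).countable.ae_notMem volume] with z hz
        rw [← ofReal_norm, ENNReal.ofReal_rpow_of_pos (norm_pos_iff.2 hz),
          ← ENNReal.ofReal_mul (by positivity)]
        refine ENNReal.ofReal_le_ofReal ((mul_le_mul_of_nonneg_right
          (root_bd β0 (β1.trans_le γ1) p hp i hi hz) (by positivity)).trans ?_)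
        rw [mul_assoc, mul_assoc, add_mul, one_mul, Finset.sum_mul, β1]
        exact mul_le_mul_of_nonneg_left (mul_le_mul_of_nonneg_left (add_le_add
          (Real.rpow_le_rpow_of_exponent_le (le_add_of_nonneg_right (by positivity)) (by linarith))
          (Finset.sum_le_sum fun r _ => fac_bd γ0.le γ1 (by linarith) z r)) two_pos.le)
          (by positivity)
    _ = ENNReal.ofReal (‖p.coeff i‖ ^ (-β) *
        (2 * (A + p.roots.toFinset.card * (4 * (A + B))))) := by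
        rw [← ofReal_integral_eq_lintegral_ofReal i3 (Eventually.of_forall fun z => by
          have := ρ0 z
          have := n3 z
          simp only [Pi.zero_apply]
          positivity), integral_const_mul, integral_const_mul, integral_add ρ1 i2,
          integral_finsetSum _ fun r _ => i1 r]
        simp only [integral_const_mul, integral_add ρ1 (sg_int.comp_sub_right _),
          integral_sub_right_eq_self sg, Finset.sum_const, nsmul_eq_mul, A, B]
    _ ≤ _ := by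
        rw [← ofReal_norm, ENNReal.ofReal_rpow_of_pos i0,
          ← ENNReal.ofReal_mul (by positivity), mul_comm]
        have : (p.roots.toFinset.card : ℝ) ≤ n := by
          exact_mod_cast (Multiset.toFinset_card_le _).trans (p.card_roots'.trans hp)
        refine ENNReal.ofReal_le_ofReal (mul_le_mul_of_nonneg_right ?_ (by positivity))
        nlinarith

/-- Several variables, product weight. -/
theorem prd (n : ℕ) {s : ℝ} (hs : 1 < s) : ∃ β > (0 : ℝ), ∃ C : ℝ≥0∞, C ≠ ⊤ ∧ ∀ (w : ℕ)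
    (p : MvPolynomial (Fin w) ℂ), (∀ i, p.degreeOf i ≤ n) → ∀ m,
      ∫⁻ z : Fin w → ℂ, ‖p.eval z‖ₑ ^ (-β) * ∏ i, ENNReal.ofReal ((1 + ‖z i‖ ^ 2) ^ (-s)) ≤
        C ^ w * ‖p.coeff m‖ₑ ^ (-β) := by
  obtain ⟨β, β0, C, -, C1, hC⟩ := one n hs
  refine ⟨β, β0, C, C1, fun w => ?_⟩
  induction w with
  | zero =>
    intro p _ m
    rw [p.eq_C_of_isEmpty, Subsingleton.elim m 0]
    simp [volume_pi]
  | succ w ih =>
    intro p hp m
    set q := MvPolynomial.finSuccEquiv ℂ w p with hq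
    have mp := (volume_preserving_piFinSuccAbove (fun _ : Fin (w + 1) => ℂ) 0).symm
    rw [← mp.lintegral_comp_emb (MeasurableEquiv.measurableEmbedding _), Measure.volume_eq_prod,
      ← lintegral_prod_swap]
    refine (lintegral_prod_le _).trans ?_
    calc _ ≤ ∫⁻ y : Fin w → ℂ, C * (‖(q.coeff (m 0)).eval y‖ₑ ^ (-β) *
          ∏ i, ENNReal.ofReal ((1 + ‖y i‖ ^ 2) ^ (-s))) := lintegral_mono fun y => by
          have := hC (q.map (MvPolynomial.eval y)) (Polynomial.natDegree_map_le.trans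
            ((MvPolynomial.natDegree_finSuccEquiv p).trans_le (hp 0))) (m 0)
          rw [Polynomial.coeff_map] at this
          rw [← mul_assoc]
          refine le_trans (le_of_eq ?_) (mul_le_mul_left this _)
          rw [← lintegral_mul_const' _ _ (ENNReal.prod_ne_top fun _ _ => ENNReal.ofReal_ne_top)]
          refine lintegral_congr fun x => ?_
          simp only [MeasurableEquiv.piFinSuccAbove_symm_apply, Fin.insertNthEquiv,
            Equiv.coe_fn_mk, Fin.insertNth_zero', Prod.fst_swap, Prod.snd_swap,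
            MvPolynomial.eval_eq_eval_mv_eval', Fin.prod_univ_succ, Fin.cons_zero, Fin.cons_succ,
            mul_assoc, hq]
      _ ≤ C * (C ^ w * ‖(q.coeff (m 0)).coeff m.tail‖ₑ ^ (-β)) := by
          rw [lintegral_const_mul' _ _ C1]
          exact mul_le_mul_right (ih _ (fun j =>
            (MvPolynomial.degreeOf_coeff_finSuccEquiv p j _).trans (hp _)) _) _
      _ = _ := by
          rw [hq, MvPolynomial.finSuccEquiv_coeff_coeff, Finsupp.cons_tail, pow_succ', mul_assoc]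

/-- The estimate of Cartan type, uniform in the polynomial. -/
theorem car (w n : ℕ) {s : ℝ} (hs : w < s) : ∃ α > (0 : ℝ), ∃ C : ℝ≥0∞, C ≠ ⊤ ∧
    ∀ p : MvPolynomial (Fin w) ℂ, (∀ i, p.degreeOf i ≤ n) → ∀ m, 1 ≤ ‖p.coeff m‖ →
      ∀ β ∈ Icc 0 α,
        ∫⁻ z : Fin w → ℂ, ‖p.eval z‖ₑ ^ (-β) * ENNReal.ofReal ((1 + ‖z‖ ^ 2) ^ (-s)) ≤ C := by
  have w0 : (0 : ℝ) < w + 1 := by positivity
  obtain ⟨α, α0, C, C1, hC⟩ := prd n (s := (s + 1) / (w + 1)) ((one_lt_div w0).2 (by linarith))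
  refine ⟨α, α0, C ^ w + C ^ w, by finiteness, fun p hp m hm β hβ => ?_⟩
  have a1 := hC w 1 (fun i => by simp) 0
  have a2 := (hC w p hp m).trans (mul_le_of_le_one_right' (ENNReal.rpow_le_one_of_one_le_of_neg
    (by rw [← ofReal_norm]; exact ENNReal.one_le_ofReal.2 hm) (by linarith)))
  simp only [map_one, enorm_one, ENNReal.one_rpow, MvPolynomial.coeff_zero_one, mul_one] at a1
  refine le_trans ?_ (add_le_add a1 a2)
  rw [← lintegral_add_left (by fun_prop)]
  refine lintegral_mono fun z => ?_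
  beta_reduce
  rw [← add_mul]
  refine mul_le_mul' ?_ ?_
  · rcases le_total 1 ‖p.eval z‖ₑ with h | h
    · exact le_add_right ((ENNReal.rpow_le_rpow_of_exponent_le h (neg_nonpos.2 hβ.1)).trans_eq
        ENNReal.rpow_zero)
    · exact le_add_left (ENNReal.rpow_le_rpow_of_exponent_ge h (neg_le_neg hβ.2))
  · rw [← ENNReal.ofReal_prod_of_nonneg fun _ _ => by positivity]
    refine ENNReal.ofReal_le_ofReal ?_
    calc _ ≤ (1 + ‖z‖ ^ 2) ^ (-((s + 1) / (w + 1)) * w) :=
          Real.rpow_le_rpow_of_exponent_le (le_add_of_nonneg_right (by positivity)) (by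
            rw [neg_mul, neg_le_neg_iff, div_mul_eq_mul_div, div_le_iff₀ w0]
            nlinarith)
      _ = ∏ _i : Fin w, (1 + ‖z‖ ^ 2) ^ (-((s + 1) / (w + 1))) := by
          rw [Real.rpow_mul_natCast (by positivity)]
          simp
      _ ≤ _ := Finset.prod_le_prod (fun _ _ => by positivity) fun i _ =>
          Real.rpow_le_rpow_of_nonpos (by positivity) (by gcongr; exact norm_le_pi_norm z i)
            (neg_nonpos.2 (div_nonneg (by linarith [Nat.cast_nonneg (α := ℝ) w]) w0.le))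

/-- The same with the norm of Fubini and Study. -/
theorem carR (w n d : ℕ) : ∃ α > (0 : ℝ), ∃ C : ℝ≥0∞, C ≠ ⊤ ∧
    ∀ p : MvPolynomial (Fin w) ℂ, (∀ i, p.degreeOf i ≤ n) → ∀ m, 1 ≤ ‖p.coeff m‖ →
      ∀ β ∈ Icc 0 α, ∫⁻ z : Fin w → ℂ,
        ENNReal.ofReal (Complex.normSq (p.eval z) / (1 + ‖z‖ ^ 2) ^ d) ^ (-β) *
          ENNReal.ofReal (1 / (1 + ‖z‖ ^ 2) ^ (w + 1)) ≤ C := by
  obtain ⟨α, α0, C, C1, hC⟩ := car w n (s := w + 1 / 2) (by linarith)
  refine ⟨min (α / 2) (1 / (2 * (d + 1))), by positivity, C, C1, fun p hp m hm β hβ => ?_⟩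
  obtain ⟨b1, b2⟩ := le_min_iff.1 hβ.2
  refine le_trans (lintegral_mono fun z => ?_)
    (hC p hp m hm (2 * β) ⟨by linarith [hβ.1], by linarith⟩)
  have q : 1 ≤ 1 + ‖z‖ ^ 2 := le_add_of_nonneg_right (by positivity)
  have q0 : 0 < (1 + ‖z‖ ^ 2) ^ d := by positivity
  beta_reduce
  rw [div_eq_mul_inv, ENNReal.ofReal_mul (Complex.normSq_nonneg _),
    ENNReal.mul_rpow_of_ne_top ENNReal.ofReal_ne_top ENNReal.ofReal_ne_top,
    Complex.normSq_eq_norm_sq, ENNReal.ofReal_pow (norm_nonneg _), ofReal_norm,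
    ← ENNReal.rpow_natCast, ← ENNReal.rpow_mul, mul_assoc,
    ENNReal.ofReal_rpow_of_pos (inv_pos.2 q0), ← ENNReal.ofReal_mul (by positivity),
    Nat.cast_ofNat, mul_neg]
  refine mul_le_mul_right (ENNReal.ofReal_le_ofReal ?_) _
  rw [one_div, ← Real.rpow_natCast _ d, ← Real.rpow_natCast _ (w + 1),
    ← Real.rpow_neg (by positivity),
    ← Real.rpow_neg (by positivity), ← Real.rpow_mul (by positivity),
    ← Real.rpow_add (by positivity)]
  refine Real.rpow_le_rpow_of_exponent_le q ?_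
  rw [le_div_iff₀ (by positivity)] at b2
  push_cast
  nlinarith [hβ.1]

end Pool.Agent.Lib.KG67
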