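import Pool.Agent.Lib.KG67.Mass

/-! The mass of the kernel on the tube of radius `r`. -/

open scoped ENNReal Topology
open MeasureTheory Set Filter Metric

noncomputable section

namespace Pool.Agent.Lib.KG67

theorem tube0 {k : ℕ} (m : Measure (Fin k → ℂ)) [IsFiniteMeasure m] : ∀ᵐ y ∂m,
    ∃ c > (0 : ℝ≥0∞), ∀ᶠ r in 𝓝[>] (0 : ℝ),
      c ≤ ∫⁻ u, (closedBall y r).indicator (fun u => ENNReal.ofReal (kn k r (u - y))) u ∂m := by
  have d : Module.finrank ℝ (Fin k → ℂ) = 2 * k := by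
    simp [Module.finrank_pi_fintype, mul_comm]
  filter_upwards [Besicovitch.ae_tendsto_rnDeriv volume m, Measure.rnDeriv_lt_top volume m]
    with y h1 h2
  set D := Measure.rnDeriv volume m y + 1
  have D0 : D ≠ 0 := by simp [D]
  have D1 : D ≠ ⊤ := ENNReal.add_ne_top.2 ⟨h2.ne, ENNReal.one_ne_top⟩
  refine ⟨ENNReal.ofReal ((k + 1 : ℝ) ^ (k + 1))⁻¹ * volume (ball (0 : Fin k → ℂ) 1) / D,
    ENNReal.div_pos (mul_ne_zero (ENNReal.ofReal_pos.2 (by positivity)).ne'
      (measure_ball_pos _ _ one_pos).ne') D1, ?_⟩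
  filter_upwards [h1.eventually (gt_mem_nhds (ENNReal.lt_add_right h2.ne one_ne_zero)),
    self_mem_nhdsWithin] with r a (hr : 0 < r)
  have b := (ENNReal.div_le_iff_le_mul (Or.inr D1) (Or.inr D0)).1 a.le
  rw [Measure.addHaar_closedBall _ _ hr.le, d] at b
  rw [ENNReal.div_le_iff_le_mul (Or.inl D0) (Or.inl D1)]
  calc _ = ENNReal.ofReal (((k + 1 : ℝ) ^ (k + 1))⁻¹ * (r ^ (2 * k))⁻¹) *
        (ENNReal.ofReal (r ^ (2 * k)) * volume (ball (0 : Fin k → ℂ) 1)) := by
        rw [← mul_assoc, ← ENNReal.ofReal_mul (by positivity), inv_mul_cancel_right₀ (by positivity)]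
    _ ≤ ENNReal.ofReal (((k + 1 : ℝ) ^ (k + 1))⁻¹ * (r ^ (2 * k))⁻¹) * m (closedBall y r) * D := by
        rw [mul_assoc, mul_comm (m _)]
        exact mul_le_mul_right b _
    _ ≤ _ := by
        refine mul_le_mul_left ?_ _
        rw [← lintegral_indicator_const measurableSet_closedBall]
        exact lintegral_mono fun u => (indicator_le_indicator' fun hu =>
          ENNReal.ofReal_le_ofReal (kn_ge k hr (mem_closedBall_iff_norm.1 hu)))

/-- The mass of the kernel on the part of a neighbourhood that lies in the tube. -/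
theorem tube {X : Type} [TopologicalSpace X] [SecondCountableTopology X] [MeasurableSpace X]
    [OpensMeasurableSpace X] (μ : Measure X) [IsFiniteMeasure μ] {k : ℕ} {t : X → Fin k → ℂ}
    (ht : AEMeasurable t μ) : ∀ᵐ x₀ ∂μ, ∀ V ∈ 𝓝 x₀, ∃ c > (0 : ℝ≥0∞), ∀ᶠ r in 𝓝[>] (0 : ℝ),
      c ≤ ∫⁻ x in V, (closedBall (t x₀) r).indicator
        (fun u => ENNReal.ofReal (kn k r (u - t x₀))) (t x) ∂μ := by
  have a : ∀ b ∈ TopologicalSpace.countableBasis X, ∀ᵐ x₀ ∂μ, x₀ ∈ b → ∃ c > (0 : ℝ≥0∞),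
      ∀ᶠ r in 𝓝[>] (0 : ℝ), c ≤ ∫⁻ x in b, (closedBall (t x₀) r).indicator
        (fun u => ENNReal.ofReal (kn k r (u - t x₀))) (t x) ∂μ := fun b hb => by
    rw [← ae_restrict_iff' (TopologicalSpace.isOpen_of_mem_countableBasis hb).measurableSet]
    filter_upwards [ae_of_ae_map ht.restrict (tube0 ((μ.restrict b).map t))] with x ⟨c, c0, hc⟩
    exact ⟨c, c0, hc.mono fun r h => h.trans (lintegral_map_le _ _)⟩
  filter_upwards [(ae_ball_iff (TopologicalSpace.countable_countableBasis X)).2 a] with x h V hV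
  obtain ⟨b, hb, hx, hbV⟩ := (TopologicalSpace.isBasis_countableBasis X).mem_nhds_iff.1 hV
  obtain ⟨c, c0, hc⟩ := h b hb hx
  exact ⟨c, c0, hc.mono fun r h => h.trans (lintegral_mono_set hbV)⟩

end Pool.Agent.Lib.KG67
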