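import Pool.Agent.Lib.KC.Defs
import Pool.Agent.Lib.KH.B_KIT
import Pool.Agent.Lib.KG67.MassB

/-! The concentrating measures at a general point. -/

open scoped Classical Topology ENNReal
open Set MeasureTheory Metric Filter

noncomputable section

namespace Pool.Agent.Lib.KG67

open Pool.Agent.Lib.SV (E nsq)
open Pool.Agent.Lib.HS32 Pool.Agent.Lib.KH Pool.Agent.Lib.KC

variable {n : ℕ} {M : Mf n} [M.Cpt] (A : An M)

theorem s_cont : ContinuousOn (fun y => (A.s · y)) A.O := continuousOn_pi.2 fun i =>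
  ((bKIT n M A.H A.O A.kae.toMet A.opn).1 ℂ _
    ((bKIT n M A.H A.O A.kae.toMet A.opn).2.1 _ (A.hs i).1)).1

theorem t_cont : ContinuousOn (fun y => tl (A.s · y)) A.O :=
  continuousOn_pi.2 fun i => continuousOn_pi.1 (s_cont A) (some i)

theorem bx_meas (y₀ : M.X) (ρ : ℝ) : MeasurableSet (A.bx y₀ ρ) := by
  have h := ((s_cont A).sub (continuousOn_const (c := (A.s · y₀)))).norm.isOpen_inter_preimage
    A.opn (isOpen_Ioi (a := ρ))
  rw [show A.bx y₀ ρ = A.O \ (A.O ∩ (fun y => ‖(A.s · y) - (A.s · y₀)‖) ⁻¹' Ioi ρ) from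
    Set.ext fun y => ⟨fun a => ⟨a.1, fun b => not_lt.2 (show _ ≤ ρ from a.2) b.2⟩,
      fun a => ⟨a.1, show _ ≤ ρ from le_of_not_gt fun b => a.2 ⟨a.1, b⟩⟩⟩]
  exact A.opn.measurableSet.diff h.measurableSet

theorem bx_nhds {y₀ : M.X} (h : y₀ ∈ A.O) {ρ : ℝ} (hρ : 0 < ρ) : A.bx y₀ ρ ∈ 𝓝 y₀ := by
  have c := (((s_cont A).continuousAt (A.opn.mem_nhds h)).sub
    (continuousAt_const (y := (A.s · y₀)))).norm
  exact inter_mem (A.opn.mem_nhds h) (c.eventually (ge_mem_nhds (by simpa using hρ)))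

omit [M.Cpt] in
theorem j_ne : ∀ᵐ y ∂(M.mu A.H).restrict A.O, ENNReal.ofReal (A.j y) ≠ 0 := by
  filter_upwards [ae_lt_top' ((A.cj.aemeasurable A.opn.measurableSet).ennreal_ofReal.pow_const _)
    A.ij] with y h e
  rw [e, ENNReal.zero_rpow_of_neg (neg_lt_zero.2 A.ε0)] at h
  exact lt_irrefl _ h

/-- Null sets of the base pull back to null sets. -/
theorem ae_base {p : E A.k → Prop} (hp : ∀ᵐ t, p t) : ∀ᵐ y ∂M.mu A.H, p (tl (A.s · y)) := by
  obtain ⟨C, -, hC⟩ := A.push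
  filter_upwards [(ae_restrict_iff' A.opn.measurableSet).1 (ac_of_push
    ((t_cont A).aemeasurable A.opn.measurableSet)
    (A.cj.aemeasurable A.opn.measurableSet).ennreal_ofReal (j_ne A) hC hp), A.ae] with y a b
  exact a b

theorem lint_kr (y₀ : M.X) (ρ r : ℝ) (g : M.X → ℝ≥0∞) : ∫⁻ y, g y ∂A.kr y₀ ρ r =
    ∫⁻ y in A.bx y₀ ρ, ENNReal.ofReal (kk r (tl (A.s · y₀)) (tl (A.s · y))) * g y ∂M.mu A.H :=
  lintegral_withDensity_eq_lintegral_mul_non_measurable₀ _ ((kn_meas A.k r).comp_aemeasurable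
    ((((t_cont A).mono inter_subset_left).aemeasurable (bx_meas A y₀ ρ)).sub_const
      _)).ennreal_ofReal (Eventually.of_forall fun _ => ENNReal.ofReal_lt_top) g

theorem pk {f : M.X → ℝ≥0∞} {ϖ : ℕ → M.X → ℝ} {B : ℝ}
    (hf : AEMeasurable f ((M.mu A.H).restrict A.O)) (h1 : ∫⁻ y in A.O, f y ∂M.mu A.H ≠ ⊤)
    (hϖ : ∀ i, AEMeasurable (ϖ i) ((M.mu A.H).restrict A.O))
    (h2 : ∀ i, Jo M A.H A.O (fun y => ϖ i y ^ 4) ≤ ENNReal.ofReal B) :
    ∀ᵐ y₀ ∂M.mu A.H, A.Lp y₀ → A.Pk f ϖ y₀ := by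
  have : SecondCountableTopology M.X := (mCOV n M).1
  have := (mMU n M A.H A.kae.toMet).2.1
  have ht := (t_cont A).aemeasurable (μ := M.mu A.H) A.opn.measurableSet
  have a1 := ae_base A (sel ((M.mu A.H).restrict A.O) ht
    (f := fun _ i y => 1 + f y + ENNReal.ofReal (ϖ i y ^ 4))
    (fun _ i => (hf.const_add 1).add ((hϖ i).pow_const 4).ennreal_ofReal)
    (C := fun _ => ∫⁻ y in A.O, 1 + f y ∂M.mu A.H + ENNReal.ofReal B)
    (fun _ => by
      rw [lintegral_add_left measurable_const]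
      exact ENNReal.add_ne_top.2 ⟨ENNReal.add_ne_top.2 ⟨by simp, h1⟩, ENNReal.ofReal_ne_top⟩)
    (fun _ i => by
      rw [lintegral_add_left' (hf.const_add 1)]
      exact add_le_add_right (h2 i) _)
    (r := fun ν => 1 / ((ν : ℝ) + 1)) fun ν => Nat.one_div_pos_of_nat)
  filter_upwards [a1, (ae_restrict_iff' A.opn.measurableSet).1 (tube _ ht), A.ae] with y₀
    ⟨D, D1, hD⟩ a2 hy ⟨ρ₀, ρ0, L, _, L0, hL⟩ V hV
  obtain ⟨c, c0, hc⟩ := a2 hy _ (inter_mem (interior_mem_nhds.2 hV) (bx_nhds A hy ρ0))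
  have c1 : min c 1 ≠ ⊤ := ne_top_of_le_ne_top ENNReal.one_ne_top (min_le_right _ _)
  refine ⟨(D 0).toReal, (min c 1).toReal, ENNReal.toReal_pos (lt_min c0 one_pos).ne' c1,
    fun ρ hρ r₀ hr₀ => ?_⟩
  have t1 : Tendsto (fun ν : ℕ => 1 / ((ν : ℝ) + 1)) atTop (𝓝[>] 0) :=
    tendsto_nhdsWithin_iff.2 ⟨tendsto_one_div_add_atTop_nhds_zero_nat,
      Eventually.of_forall fun ν => mem_Ioi.2 Nat.one_div_pos_of_nat⟩
  obtain ⟨ν, b1, b2, b3⟩ := (hD.and_eventually (t1.eventually (hc.and (nhdsWithin_le_nhds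
    (ge_mem_nhds (lt_min hr₀ (show 0 < ρ / 2 / L by positivity))))))).exists
  obtain ⟨b3, b4⟩ := le_min_iff.1 (show 1 / ((ν : ℝ) + 1) ≤ _ from b3)
  rw [le_div_iff₀' L0] at b4
  rw [ENNReal.ofReal_toReal c1, ENNReal.ofReal_toReal (D1 0)]
  refine ⟨_, Nat.one_div_pos_of_nat, b3, (min_le_left _ _).trans (b2.trans (le_trans ?_
    ((withDensity_apply_le _ _).trans (measure_mono (inter_subset_inter_left _ interior_subset))))),
    ?_, b1.mono fun i h => le_trans ?_ (h 0)⟩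
  · have m := fun ρ => (isOpen_interior (s := V)).measurableSet.inter (bx_meas A y₀ ρ)
    rw [← lintegral_indicator (m _), ← lintegral_indicator (m _),
      ← lintegral_indicator (bx_meas A y₀ ρ)]
    refine lintegral_mono' Measure.restrict_le_self (indicator_le fun y h => ?_)
    refine indicator_apply_le' (fun h' => ?_) fun _ => zero_le
    have : ‖(A.s · y) - (A.s · y₀)‖ ≤ ρ / 2 := (hL.2 y h.2).2.trans
      ((mul_le_mul_of_nonneg_left (mem_closedBall_iff_norm.1 h') L0.le).trans b4)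
    rw [indicator_of_mem (show y ∈ A.bx y₀ ρ from ⟨h.2.1, this.trans (half_le_self hρ.le)⟩),
      indicator_of_mem (show y ∈ interior V ∩ A.bx y₀ (ρ / 2) from ⟨h.1, h.2.1, this⟩)]
    rfl
  · obtain ⟨i, h⟩ := b1.exists
    exact le_trans (lintegral_mono fun y => (mul_comm _ _).trans_le
      (mul_le_mul_right le_self_add _)) (h 0)
  · rw [lint_kr]
    exact (lintegral_mono_set inter_subset_left).trans
      (lintegral_mono fun y => mul_le_mul_right le_add_self _)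

end Pool.Agent.Lib.KG67
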