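import Mathlib

/-! The choice of a good base point by the lemma of Fatou. -/

open scoped ENNReal
open MeasureTheory Set Filter

noncomputable section

namespace Pool.Agent.Lib.KG67

/-- Countably many double sequences with bounded integrals are bounded along one subsequence. -/
theorem fat {T : Type} [MeasurableSpace T] (m : Measure T) {a : ℕ → ℕ → ℕ → T → ℝ≥0∞}
    (ha : ∀ j ν i, Measurable (a j ν i)) {C : ℕ → ℝ≥0∞} (hC : ∀ j, C j ≠ ⊤)
    (h : ∀ j ν i, ∫⁻ t, a j ν i t ∂m ≤ C j) : ∀ᵐ t ∂m, ∃ A : ℕ → ℝ≥0∞, (∀ j, A j ≠ ⊤) ∧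
      ∃ᶠ ν in atTop, ∃ᶠ i in atTop, ∀ j, a j ν i t ≤ A j := by
  set c : ℕ → ℝ≥0∞ := fun j => 2⁻¹ ^ j * (C j + 1)⁻¹ with hc
  have c0 : ∀ j, c j ≠ 0 := fun j => mul_ne_zero (pow_ne_zero _ (by simp))
    (ENNReal.inv_ne_zero.2 (ENNReal.add_ne_top.2 ⟨hC j, ENNReal.one_ne_top⟩))
  have c1 : ∀ j, c j ≠ ⊤ := fun j => ENNReal.mul_ne_top (ENNReal.pow_ne_top (by simp)) (by simp)
  set g : ℕ → ℕ → T → ℝ≥0∞ := fun ν i t => ∑' j, c j * a j ν i t with hg
  have g1 : ∀ ν i, Measurable (g ν i) := fun ν i =>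
    Measurable.tsum fun j => (ha j ν i).const_mul _
  have g2 : ∀ ν i, ∫⁻ t, g ν i t ∂m ≤ 2 := fun ν i => by
    rw [lintegral_tsum fun j => ((ha j ν i).const_mul _).aemeasurable,
      ← ENNReal.tsum_geometric_two]
    refine ENNReal.tsum_le_tsum fun j => ?_
    rw [lintegral_const_mul _ (ha j ν i), mul_assoc]
    exact mul_le_of_le_one_right' ((mul_le_mul_right ((h j ν i).trans le_self_add) _).trans
      (ENNReal.inv_mul_le_one _))
  have g3 : ∀ ν, Measurable fun t => liminf (fun i => g ν i t) atTop := fun ν =>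
    Measurable.liminf (g1 ν)
  have g4 : ∫⁻ t, liminf (fun ν => liminf (fun i => g ν i t) atTop) atTop ∂m ≤ 2 :=
    (lintegral_liminf_le g3).trans (liminf_le_of_frequently_le' (Frequently.of_forall fun ν =>
      (lintegral_liminf_le (g1 ν)).trans
        (liminf_le_of_frequently_le' (Frequently.of_forall (g2 ν)))))
  filter_upwards [ae_lt_top (Measurable.liminf g3) (g4.trans_lt (by simp)).ne] with t ht
  obtain ⟨B, b1, b2⟩ := exists_between ht
  refine ⟨fun j => (c j)⁻¹ * B, fun j => ENNReal.mul_ne_top (ENNReal.inv_ne_top.2 (c0 j)) b2.ne,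
    (frequently_lt_of_liminf_lt (h := b1)).mono fun ν hν =>
      (frequently_lt_of_liminf_lt (h := hν)).mono fun i hi j => ?_⟩
  rw [← ENNReal.mul_le_iff_le_inv (c0 j) (c1 j)]
  exact (ENNReal.le_tsum (f := fun j => c j * a j ν i t) j).trans hi.le

/-- The kernel. -/
def kn (k : ℕ) (r : ℝ) (y : Fin k → ℂ) : ℝ :=
  r ^ 2 / (∑ j, Complex.normSq (y j) + r ^ 2) ^ (k + 1)

theorem kn_meas (k : ℕ) (r : ℝ) : Measurable (kn k r) := by
  unfold kn
  fun_prop

theorem kn_le (k : ℕ) {r : ℝ} (hr : 0 < r) (y : Fin k → ℂ) :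
    kn k r y ≤ r ^ 2 / (‖y‖ ^ 2 + r ^ 2) ^ (k + 1) := by
  have : ‖y‖ ≤ √(∑ j, Complex.normSq (y j)) := (pi_norm_le_iff_of_nonneg (by positivity)).2
    fun j => Real.le_sqrt_of_sq_le (by
      rw [← Complex.normSq_eq_norm_sq]
      exact Finset.single_le_sum (fun i _ => Complex.normSq_nonneg (y i)) (Finset.mem_univ j))
  rw [Real.le_sqrt (norm_nonneg _) (Finset.sum_nonneg fun _ _ => Complex.normSq_nonneg _)] at this
  unfold kn
  gcongr

/-- The mass of the kernel is bounded. -/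
theorem kn_int (k : ℕ) : ∃ c : ℝ≥0∞, c ≠ ⊤ ∧ ∀ r > (0 : ℝ),
    ∫⁻ y, ENNReal.ofReal (kn k r y) ≤ c := by
  set f : (Fin k → ℂ) → ℝ := fun y => 1 / (1 + ‖y‖ ^ 2) ^ (k + 1) with hf
  have d : Module.finrank ℝ (Fin k → ℂ) = 2 * k := by
    simp [Module.finrank_pi_fintype, mul_comm]
  have f1 : Integrable f := by
    have := integrable_rpow_neg_one_add_norm_sq (E := Fin k → ℂ) (μ := volume)
      (r := 2 * (k + 1 : ℕ)) (by rw [d]; push_cast; linarith)
    refine this.congr (Eventually.of_forall fun y => ?_)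
    simp only [hf]
    rw [neg_div, mul_div_cancel_left₀ _ two_ne_zero, Real.rpow_neg (by positivity),
      Real.rpow_natCast, one_div]
  refine ⟨ENNReal.ofReal (∫ y, f y), ENNReal.ofReal_ne_top, fun r hr => ?_⟩
  have f2 := (f1.comp_smul (inv_pos.2 hr).ne').const_mul (r ^ (2 * k))⁻¹
  calc _ ≤ ∫⁻ y, ENNReal.ofReal ((r ^ (2 * k))⁻¹ * f (r⁻¹ • y)) := lintegral_mono fun y =>
        ENNReal.ofReal_le_ofReal ((kn_le k hr y).trans_eq (by
          simp only [hf, norm_smul, Real.norm_of_nonneg (inv_pos.2 hr).le]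
          rw [show 1 + (r⁻¹ * ‖y‖) ^ 2 = (‖y‖ ^ 2 + r ^ 2) / r ^ 2 by field_simp; ring, div_pow]
          field_simp
          ring))
    _ = _ := by
        rw [← ofReal_integral_eq_lintegral_ofReal f2 (Eventually.of_forall fun y => by
          simp only [hf, Pi.zero_apply]; positivity), integral_const_mul,
          Measure.integral_comp_inv_smul_of_nonneg _ _ hr.le, d, smul_eq_mul,
          inv_mul_cancel_left₀ (by positivity)]

/-- The means over the kernel have bounded integrals in the base point. -/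
theorem kn_ton (k : ℕ) : ∃ c : ℝ≥0∞, c ≠ ⊤ ∧ ∀ (X : Type) [MeasurableSpace X] (μ : Measure X)
    [SFinite μ] (t : X → Fin k → ℂ) (f : X → ℝ≥0∞) (r : ℝ), Measurable t → Measurable f → 0 < r →
    (Measurable fun y => ∫⁻ x, ENNReal.ofReal (kn k r (t x - y)) * f x ∂μ) ∧
    ∫⁻ y, ∫⁻ x, ENNReal.ofReal (kn k r (t x - y)) * f x ∂μ ≤ c * ∫⁻ x, f x ∂μ := by
  obtain ⟨c, c1, hc⟩ := kn_int k
  refine ⟨c, c1, fun X _ μ _ t f r ht hf hr => ?_⟩
  have m : Measurable fun p : (Fin k → ℂ) × X => ENNReal.ofReal (kn k r (t p.2 - p.1)) * f p.2 :=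
    ((kn_meas k r).comp ((ht.comp measurable_snd).sub measurable_fst)).ennreal_ofReal.mul
      (hf.comp measurable_snd)
  refine ⟨m.lintegral_prod_right', ?_⟩
  rw [lintegral_lintegral_swap m.aemeasurable, ← lintegral_const_mul _ hf]
  refine lintegral_mono fun x => ?_
  beta_reduce
  rw [lintegral_mul_const _ (f := fun y => ENNReal.ofReal (kn k r (t x - y)))
    ((kn_meas k r).comp (measurable_const.sub measurable_id)).ennreal_ofReal,
    lintegral_sub_left_eq_self (fun y => ENNReal.ofReal (kn k r y))]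
  exact mul_le_mul_left (hc r hr) _

/-- The choice of the base point. -/
theorem sel {X : Type} [MeasurableSpace X] (μ : Measure X) [SFinite μ] {k : ℕ}
    {t : X → Fin k → ℂ} (ht : AEMeasurable t μ) {f : ℕ → ℕ → X → ℝ≥0∞}
    (hf : ∀ j i, AEMeasurable (f j i) μ) {C : ℕ → ℝ≥0∞} (hC : ∀ j, C j ≠ ⊤)
    (h : ∀ j i, ∫⁻ x, f j i x ∂μ ≤ C j) {r : ℕ → ℝ} (hr : ∀ ν, 0 < r ν) :
    ∀ᵐ y : Fin k → ℂ, ∃ A : ℕ → ℝ≥0∞, (∀ j, A j ≠ ⊤) ∧ ∃ᶠ ν in atTop, ∃ᶠ i in atTop, ∀ j,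
      ∫⁻ x, ENNReal.ofReal (kn k (r ν) (t x - y)) * f j i x ∂μ ≤ A j := by
  obtain ⟨c, c1, hc⟩ := kn_ton k
  have e : ∀ j ν i y, ∫⁻ x, ENNReal.ofReal (kn k (r ν) (t x - y)) * f j i x ∂μ =
      ∫⁻ x, ENNReal.ofReal (kn k (r ν) (ht.mk t x - y)) * (hf j i).mk _ x ∂μ := fun j ν i y =>
    lintegral_congr_ae (by
      filter_upwards [ht.ae_eq_mk, (hf j i).ae_eq_mk] with x a b
      rw [a, b])
  have a := fun j ν i => hc X μ _ _ _ ht.measurable_mk (hf j i).measurable_mk (hr ν)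
  simp only [e]
  exact fat volume (fun j ν i => (a j ν i).1) (fun j => ENNReal.mul_ne_top c1 (hC j))
    fun j ν i => (a j ν i).2.trans (mul_le_mul_right
      ((lintegral_congr_ae (hf j i).ae_eq_mk).symm.trans_le (h j i)) _)

end Pool.Agent.Lib.KG67
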