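import Pool.Agent.Lib.KG67.Sel

/-! A lower bound for the mass of the kernel at almost every point. -/

open scoped ENNReal Topology
open MeasureTheory Set Filter Metric

noncomputable section

namespace Pool.Agent.Lib.KG67

theorem kn_nn (k : ℕ) (r : ℝ) (y : Fin k → ℂ) : 0 ≤ kn k r y :=
  div_nonneg (sq_nonneg _) (pow_nonneg (add_nonneg
    (Finset.sum_nonneg fun _ _ => Complex.normSq_nonneg _) (sq_nonneg _)) _)

theorem kn_ge (k : ℕ) {r : ℝ} (hr : 0 < r) {y : Fin k → ℂ} (hy : ‖y‖ ≤ r) :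
    (((k + 1 : ℝ) ^ (k + 1))⁻¹ * (r ^ (2 * k))⁻¹) ≤ kn k r y := by
  have a : ∑ j, Complex.normSq (y j) ≤ k * r ^ 2 := by
    refine (Finset.sum_le_card_nsmul _ _ (r ^ 2) fun j _ => ?_).trans_eq (by simp)
    rw [Complex.normSq_eq_norm_sq]
    exact pow_le_pow_left₀ (norm_nonneg _) ((norm_le_pi_norm y j).trans hy) 2
  have b : 0 ≤ ∑ j, Complex.normSq (y j) := Finset.sum_nonneg fun _ _ => Complex.normSq_nonneg _
  calc _ = r ^ 2 / (k * r ^ 2 + r ^ 2) ^ (k + 1) := by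
        rw [← add_one_mul, mul_pow]
        field_simp
        ring
    _ ≤ _ := by unfold kn; gcongr

theorem mass0 {k : ℕ} (m : Measure (Fin k → ℂ)) [IsFiniteMeasure m] : ∀ᵐ y ∂m,
    ∃ c > (0 : ℝ≥0∞), ∀ᶠ r in 𝓝[>] (0 : ℝ), c ≤ ∫⁻ u, ENNReal.ofReal (kn k r (u - y)) ∂m := by
  have d : Module.finrank ℝ (Fin k → ℂ) = 2 * k := by
    simp [Module.finrank_pi_fintype, mul_comm]
  filter_upwards [Besicovitch.ae_tendsto_rnDeriv volume m, Measure.rnDeriv_lt_top volume m]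
    with y h1 h2
  set D := Measure.rnDeriv volume m y + 1
  have D0 : D ≠ 0 := by simp [D]
  have D1 : D ≠ ⊤ := ENNReal.add_ne_top.2 ⟨h2.ne, ENNReal.one_ne_top⟩
  refine ⟨ENNReal.ofReal ((k + 1 : ℝ) ^ (k + 1))⁻¹ * volume (ball (0 : Fin k → ℂ) 1) / D,
    ENNReal.div_pos (mul_ne_zero (ENNReal.ofReal_pos.2 (by positivity)).ne'
      (measure_ball_pos _ _ one_pos).ne') D1, ?_⟩
  filter_upwards [h1.eventually (gt_mem_nhds (ENNReal.lt_add_right h2.ne one_ne_zero)),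
    self_mem_nhdsWithin] with r a (hr : 0 < r)
  have b := (ENNReal.div_le_iff_le_mul (Or.inr D1) (Or.inr D0)).1 a.le
  rw [Measure.addHaar_closedBall _ _ hr.le, d] at b
  rw [ENNReal.div_le_iff_le_mul (Or.inl D0) (Or.inl D1)]
  calc _ = ENNReal.ofReal (((k + 1 : ℝ) ^ (k + 1))⁻¹ * (r ^ (2 * k))⁻¹) *
        (ENNReal.ofReal (r ^ (2 * k)) * volume (ball (0 : Fin k → ℂ) 1)) := by
        rw [← mul_assoc, ← ENNReal.ofReal_mul (by positivity), inv_mul_cancel_right₀ (by positivity)]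
    _ ≤ ENNReal.ofReal (((k + 1 : ℝ) ^ (k + 1))⁻¹ * (r ^ (2 * k))⁻¹) * m (closedBall y r) * D := by
        rw [mul_assoc, mul_comm (m _)]
        exact mul_le_mul_right b _
    _ ≤ _ := by
        refine mul_le_mul_left ?_ _
        rw [← lintegral_indicator_const measurableSet_closedBall]
        refine lintegral_mono (indicator_le fun u hu => ENNReal.ofReal_le_ofReal ?_)
        exact kn_ge k hr (mem_closedBall_iff_norm.1 hu)

/-- The mass of the kernel on a measurable set. -/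
theorem mass1 {X : Type} [MeasurableSpace X] (μ : Measure X) [IsFiniteMeasure μ] {k : ℕ}
    {t : X → Fin k → ℂ} (ht : AEMeasurable t μ) : ∀ᵐ x₀ ∂μ, ∃ c > (0 : ℝ≥0∞),
      ∀ᶠ r in 𝓝[>] (0 : ℝ), c ≤ ∫⁻ x, ENNReal.ofReal (kn k r (t x - t x₀)) ∂μ := by
  filter_upwards [ae_of_ae_map ht (mass0 (μ.map t))] with x ⟨c, c0, hc⟩
  exact ⟨c, c0, hc.mono fun r h => h.trans (lintegral_map_le _ _)⟩

/-- The mass of the kernel, with a positive density, on every neighbourhood. -/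
theorem mass {X : Type} [TopologicalSpace X] [SecondCountableTopology X] [MeasurableSpace X]
    [OpensMeasurableSpace X] (μ : Measure X) {k : ℕ} {t : X → Fin k → ℂ} (ht : AEMeasurable t μ)
    {f : X → ℝ≥0∞} (hf : AEMeasurable f μ) (h0 : ∀ᵐ x ∂μ, f x ≠ 0) (h1 : ∫⁻ x, f x ∂μ ≠ ⊤) :
    ∀ᵐ x₀ ∂μ, ∀ V ∈ 𝓝 x₀, ∃ c > (0 : ℝ≥0∞), ∀ᶠ r in 𝓝[>] (0 : ℝ),
      c ≤ ∫⁻ x in V, ENNReal.ofReal (kn k r (t x - t x₀)) * f x ∂μ := by
  have a : ∀ b ∈ TopologicalSpace.countableBasis X, ∀ᵐ x₀ ∂μ, x₀ ∈ b → ∃ c > (0 : ℝ≥0∞),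
      ∀ᶠ r in 𝓝[>] (0 : ℝ),
        c ≤ ∫⁻ x in b, ENNReal.ofReal (kn k r (t x - t x₀)) * f x ∂μ := fun b hb => by
    have := isFiniteMeasure_withDensity (μ := μ.restrict b) (f := f)
      (ne_top_of_le_ne_top h1 (setLIntegral_le_lintegral _ _))
    rw [← ae_restrict_iff' (TopologicalSpace.isOpen_of_mem_countableBasis hb).measurableSet]
    filter_upwards [(withDensity_absolutelyContinuous' hf.restrict (ae_restrict_of_ae h0)).ae_le
      (mass1 ((μ.restrict b).withDensity f)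
        (ht.restrict.mono_ac (withDensity_absolutelyContinuous _ _)))] with x ⟨c, c0, hc⟩
    refine ⟨c, c0, hc.mono fun r h => h.trans_eq ?_⟩
    exact (lintegral_withDensity_eq_lintegral_mul₀ hf.restrict
      ((kn_meas k r).comp_aemeasurable (ht.restrict.sub_const _)).ennreal_ofReal).trans
      (lintegral_congr fun x => mul_comm _ _)
  filter_upwards [(ae_ball_iff (TopologicalSpace.countable_countableBasis X)).2 a] with x h V hV
  obtain ⟨b, hb, hx, hbV⟩ := (TopologicalSpace.isBasis_countableBasis X).mem_nhds_iff.1 hV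
  obtain ⟨c, c0, hc⟩ := h b hb hx
  exact ⟨c, c0, hc.mono fun r h => h.trans (lintegral_mono_set hbV)⟩

/-- A bound for the push-forward gives absolute continuity of the first projection. -/
theorem ac_of_push {X Y Z : Type} [MeasurableSpace X] [MeasurableSpace Y] [MeasurableSpace Z]
    {μ : Measure X} {ν : Measure Y} {ρ : Measure Z} [SFinite ρ] {t : X → Y} {z : X → Z}
    {j : X → ℝ≥0∞} {C : ℝ≥0∞} (ht : AEMeasurable t μ) (hj : AEMeasurable j μ)
    (h0 : ∀ᵐ x ∂μ, j x ≠ 0) (h : ∀ G : Y × Z → ℝ≥0∞, Measurable G →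
      ∫⁻ x, G (t x, z x) * j x ∂μ ≤ C * ∫⁻ p, G p ∂ν.prod ρ) {p : Y → Prop}
    (hp : ∀ᵐ y ∂ν, p y) : ∀ᵐ x ∂μ, p (t x) := by
  obtain ⟨S, h1, h2, h3⟩ := exists_measurable_superset_of_null (ae_iff.1 hp)
  have a := h ((S ×ˢ univ).indicator 1) (measurable_one.indicator (h2.prod .univ))
  rw [lintegral_indicator_one (h2.prod .univ), Measure.prod_prod, h3, zero_mul, mul_zero,
    nonpos_iff_eq_zero] at a
  have e : (fun x => (S ×ˢ univ).indicator (1 : Y × Z → ℝ≥0∞) (t x, z x) * j x) =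
      fun x => S.indicator (1 : Y → ℝ≥0∞) (t x) * j x := funext fun x => by
    by_cases c : t x ∈ S <;> simp [c]
  rw [e] at a
  filter_upwards [(lintegral_eq_zero_iff'
    (((measurable_one.indicator h2).comp_aemeasurable ht).mul hj)).1 a, h0] with x b c
  by_contra n
  rw [Pi.mul_apply, Function.comp_apply, indicator_of_mem (h1 n), Pi.one_apply, one_mul] at b
  exact c b

end Pool.Agent.Lib.KG67
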